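import Pool.Agent.Helper59.SL.GoalsA

/-!
# Packet SLG CMC (`MP_fc6b1e_nt`): criterion for CM fields
-/

open NumberField Module

namespace Pool.Agent.Helper83.SLG.CMC

open Pool.Agent.Helper59.SL

universe u v

/-- A totally complex number field with an endomorphism inducing complex conjugation in every
embedding is a CM field. -/
theorem isCM_of_conj (H : Type u) [Field H] [NumberField H] [IsTotallyComplex H] (τ : H →+* H)
    (hτ : ∀ (φ : H →+* ℂ) (x : H), φ (τ x) = (starRingEnd ℂ) (φ x)) : IsCMField H := by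
  classical
  obtain ⟨φ⟩ : Nonempty (H →+* ℂ) := inferInstance
  have hbij : Function.Bijective (τ.toRatAlgHom : H →ₐ[ℚ] H) :=
    Algebra.IsAlgebraic.algHom_bijective _
  let σ : H ≃ₐ[ℚ] H := AlgEquiv.ofBijective τ.toRatAlgHom hbij
  have hσ : ∀ x, σ x = τ x := fun x => rfl
  have hσ2 : σ ^ 2 = 1 := by
    ext x
    apply φ.injective
    rw [pow_two, AlgEquiv.mul_apply, AlgEquiv.one_apply, hσ, hσ, hτ, hτ]
    exact Complex.conj_conj _
  have hσ1 : σ ≠ 1 := by
    intro h
    have h1 : ComplexEmbedding.IsReal φ := by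
      rw [ComplexEmbedding.isReal_iff]
      ext x
      rw [ComplexEmbedding.conjugate_coe_eq, ← hτ φ x, ← hσ, h]
      rfl
    exact IsTotallyComplex.complexEmbedding_not_isReal φ h1
  have hord : orderOf σ = 2 := orderOf_eq_prime hσ2 hσ1
  have hcard : Nat.card (Subgroup.zpowers σ) = 2 := by
    rw [Nat.card_zpowers, hord]
  have hfin : Finite (Subgroup.zpowers σ) := Nat.finite_of_card_ne_zero (by rw [hcard]; norm_num)
  have : Fintype (Subgroup.zpowers σ) := Fintype.ofFinite _
  let L := FixedPoints.subfield (Subgroup.zpowers σ) H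
  have hL : ∀ x : L, τ (x : H) = x := by
    intro x
    have h1 := x.2 ⟨σ, Subgroup.mem_zpowers σ⟩
    exact h1
  have : IsTotallyReal L := ⟨fun w => by
    obtain ⟨W, rfl⟩ := InfinitePlace.comap_surjective (K := H) w
    dsimp only
    rw [← InfinitePlace.mk_embedding W, InfinitePlace.comap_mk, InfinitePlace.isReal_mk_iff,
      ComplexEmbedding.isReal_iff]
    ext x
    rw [ComplexEmbedding.conjugate_coe_eq]
    change (starRingEnd ℂ) (W.embedding (x : H)) = W.embedding (x : H)
    rw [← hτ, hL]⟩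
  have : Algebra.IsQuadraticExtension L H := ⟨by
    have h1 := FixedPoints.finrank_eq_card (Subgroup.zpowers σ) H
    rw [← Nat.card_eq_fintype_card, hcard] at h1
    exact h1⟩
  exact IsCMField.ofCMExtension L H

/-- PACKET CMC. -/
theorem thm : S_CMC.{u, v} := by
  intro H Ω _ _ _ _ _ _ _ σ σ' h hyp
  obtain ⟨ι, _⟩ : ∃ ι : Ω →+* ℂ, True := by
    exact ⟨(IsAlgClosed.lift (R := ℚ) (S := Ω) (M := ℂ)).toRingHom, trivial⟩
  have hpt : ∀ (ι' : Ω →+* ℂ) (x : H), (starRingEnd ℂ) (ι' (σ' x)) = ι' (σ (h x)) := by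
    intro ι' x
    have h1 := RingHom.congr_fun (hyp ι') x
    rw [ComplexEmbedding.conjugate_coe_eq] at h1
    exact h1
  -- the claim
  have hex : ∀ x : H, ∃ y : H, σ' y = σ (h x) := by
    intro x
    let := σ'.toAlgebra
    have : IsScalarTower ℚ H Ω := IsScalarTower.of_algebraMap_eq' (Subsingleton.elim _ _)
    have : Algebra.IsAlgebraic H Ω := Algebra.IsAlgebraic.tower_top (K := ℚ) H
    have : IsAlgClosure H Ω := ⟨inferInstance, inferInstance⟩
    have h2 : σ (h x) ∈ (⊥ : IntermediateField H Ω) := by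
      rw [InfiniteGalois.mem_bot_iff_fixed]
      intro s
      apply ι.injective
      have h3 := hpt (ι.comp (s : Ω →+* Ω)) x
      rw [← hpt ι x]
      have h4 : s (σ' x) = σ' x := s.commutes x
      have h5 : (ι.comp (s : Ω →+* Ω)) (σ' x) = ι (σ' x) := by
        change ι (s (σ' x)) = ι (σ' x)
        rw [h4]
      rw [h5] at h3
      exact h3.symm
    rw [IntermediateField.mem_bot] at h2
    obtain ⟨y, hy⟩ := h2
    exact ⟨y, hy⟩
  let e : H ≃+* σ'.range := RingEquiv.ofBijective σ'.rangeRestrict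
    ⟨fun a b hab => σ'.injective (congrArg Subtype.val hab), σ'.rangeRestrict_surjective⟩
  let τ : H →+* H := (e.symm : σ'.range →+* H).comp
    ((σ.comp h).codRestrict σ'.range (fun x => hex x))
  have hτ : ∀ x, σ' (τ x) = σ (h x) := by
    intro x
    have h1 : e (τ x) = (σ.comp h).codRestrict σ'.range (fun x => hex x) x :=
      e.apply_symm_apply _
    exact congrArg Subtype.val h1
  refine isCM_of_conj H τ fun φ x => ?_
  obtain ⟨ι', hι'⟩ : ∃ ι' : Ω →+* ℂ, ι'.comp σ' = φ := by
    let := σ'.toAlgebra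
    have : IsScalarTower ℚ H Ω := IsScalarTower.of_algebraMap_eq' (Subsingleton.elim _ _)
    have : Algebra.IsAlgebraic H Ω := Algebra.IsAlgebraic.tower_top (K := ℚ) H
    exact Pool.Agent.Helper51.SigLeo.exists_extend_embedding φ
  rw [← hι']
  change ι' (σ' (τ x)) = (starRingEnd ℂ) (ι' (σ' x))
  rw [hτ, hpt]

end Pool.Agent.Helper83.SLG.CMC
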